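import Mathlib

set_option autoImplicit false

namespace Pool.Agent.Results.MP_a5fab4_co.Disproof

/-- `i(G)`: the smallest cardinality of a maximal independent set of `G`. -/
noncomputable def indepDom {n : ℕ} (G : SimpleGraph (Fin n)) : ℕ :=
  sInf {k | ∃ S : Finset (Fin n), Maximal (fun T : Finset (Fin n) => G.IsIndepSet (T : Set (Fin n))) S ∧ S.card = k}

/-- `μ(G)`: the smallest cardinality of a maximal clique of `G`. -/
noncomputable def minMaxClique {n : ℕ} (G : SimpleGraph (Fin n)) : ℕ :=
  sInf {k | ∃ S : Finset (Fin n), Maximal (fun T : Finset (Fin n) => G.IsClique (T : Set (Fin n))) S ∧ S.card = k}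

/-- `s(l,m) = n`: `n` is the largest order such that every graph of that order has
`i(G) ≤ l` or `μ(G) ≤ m`. -/
def IsLowerRamsey (l m n : ℕ) : Prop :=
  IsGreatest {p : ℕ | ∀ G : SimpleGraph (Fin p), indepDom G ≤ l ∨ minMaxClique G ≤ m} n

/-- adjacency: vertices below 15 form a clique, the others an independent set. -/
def adjB (a b : ℕ) : Bool :=
  if a < 15 then (if b < 15 then a != b else decide (4 ≤ (b + 65 - 4 * a) % 10))
  else (if b < 15 then decide (4 ≤ (a + 65 - 4 * b) % 10) else false)

def G0 : SimpleGraph (Fin 25) where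
  Adj a b := adjB a b = true
  symm := ⟨by decide⟩
  loopless := ⟨by decide⟩

instance : DecidableRel G0.Adj := fun a b => inferInstanceAs (Decidable (adjB a b = true))

theorem indep_ge (S : Finset (Fin 25))
    (hS : Maximal (fun T : Finset (Fin 25) => G0.IsIndepSet (T : Set (Fin 25))) S) : 5 ≤ S.card := by
  have key : ∀ T : Finset (Fin 25), G0.IsIndepSet (T : Set (Fin 25)) → S ⊆ T → 5 ≤ T.card →
      5 ≤ S.card := fun T h1 h2 h3 => h3.trans (Finset.card_le_card (hS.2 h1 h2))
  by_cases h : ∃ u ∈ S, u.val < 15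
  · obtain ⟨u, hu, hu15⟩ := h
    refine key (Finset.univ.filter (fun v => ¬ G0.Adj u v)) ?_ ?_ ?_
    · have : ∀ u : Fin 25, u.val < 15 → ∀ a b : Fin 25, ¬ G0.Adj u a → ¬ G0.Adj u b → a ≠ b →
          ¬ G0.Adj a b := by decide +kernel
      intro a ha b hb hab
      exact this u hu15 a b (by simpa using ha) (by simpa using hb) hab
    · intro v hv
      simp only [Finset.mem_filter, Finset.mem_univ, true_and]
      by_cases huv : u = v
      · subst huv; exact G0.irrefl
      · exact hS.1 hu hv huv
    · revert hu15; clear hu; revert u; decide +kernel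
  · push Not at h
    refine key (Finset.univ.filter (fun v => 15 ≤ v.val)) ?_ ?_ ?_
    · have : ∀ a b : Fin 25, 15 ≤ a.val → 15 ≤ b.val → ¬ G0.Adj a b := by decide +kernel
      intro a ha b hb _
      exact this a b (by simpa using ha) (by simpa using hb)
    · intro v hv
      simpa using h v hv
    · decide +kernel

theorem clique_ge (S : Finset (Fin 25))
    (hS : Maximal (fun T : Finset (Fin 25) => G0.IsClique (T : Set (Fin 25))) S) : 10 ≤ S.card := by
  have key : ∀ T : Finset (Fin 25), G0.IsClique (T : Set (Fin 25)) → S ⊆ T → 10 ≤ T.card →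
      10 ≤ S.card := fun T h1 h2 h3 => h3.trans (Finset.card_le_card (hS.2 h1 h2))
  by_cases h : ∃ u ∈ S, 15 ≤ u.val
  · obtain ⟨u, hu, hu15⟩ := h
    refine key (Finset.univ.filter (fun v => u = v ∨ G0.Adj u v)) ?_ ?_ ?_
    · have : ∀ u : Fin 25, 15 ≤ u.val → ∀ a b : Fin 25, (u = a ∨ G0.Adj u a) →
          (u = b ∨ G0.Adj u b) → a ≠ b → G0.Adj a b := by decide +kernel
      intro a ha b hb hab
      exact this u hu15 a b (by simpa using ha) (by simpa using hb) hab
    · intro v hv
      simp only [Finset.mem_filter, Finset.mem_univ, true_and]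
      by_cases huv : u = v
      · exact Or.inl huv
      · exact Or.inr (hS.1 hu hv huv)
    · revert hu15; clear hu; revert u; decide +kernel
  · push Not at h
    refine key (Finset.univ.filter (fun v => v.val < 15)) ?_ ?_ ?_
    · have : ∀ a b : Fin 25, a.val < 15 → b.val < 15 → a ≠ b → G0.Adj a b := by decide +kernel
      intro a ha b hb hab
      exact this a b (by simpa using ha) (by simpa using hb) hab
    · intro v hv
      simpa using h v hv
    · decide +kernel

theorem result : ∃ l m : ℕ, 1 ≤ l ∧ 1 ≤ m ∧ m / 2 ≤ l ∧ l ≤ m ∧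
    ¬ IsLowerRamsey l m (2 * (l + m) - 1) := by
  refine ⟨4, 9, by norm_num, by norm_num, by norm_num, by norm_num, ?_⟩
  intro h
  have h1 := h.1 G0
  rcases h1 with h1 | h1
  · have hne : {k | ∃ S : Finset (Fin 25), Maximal (fun T : Finset (Fin 25) =>
        G0.IsIndepSet (T : Set (Fin 25))) S ∧ S.card = k}.Nonempty := by
      obtain ⟨S, _, hS⟩ := Finite.exists_le_maximal
        (p := fun T : Finset (Fin 25) => G0.IsIndepSet (T : Set (Fin 25))) (a := ∅) (by simp)
      exact ⟨_, S, hS, rfl⟩
    obtain ⟨S, hS, hk⟩ := Nat.sInf_mem hne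
    have := indep_ge S hS
    have h2 : S.card ≤ 4 := hk.le.trans h1
    omega
  · have hne : {k | ∃ S : Finset (Fin 25), Maximal (fun T : Finset (Fin 25) =>
        G0.IsClique (T : Set (Fin 25))) S ∧ S.card = k}.Nonempty := by
      obtain ⟨S, _, hS⟩ := Finite.exists_le_maximal
        (p := fun T : Finset (Fin 25) => G0.IsClique (T : Set (Fin 25))) (a := ∅) (by simp)
      exact ⟨_, S, hS, rfl⟩
    obtain ⟨S, hS, hk⟩ := Nat.sInf_mem hne
    have := clique_ge S hS
    have h2 : S.card ≤ 9 := hk.le.trans h1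
    omega

end Pool.Agent.Results.MP_a5fab4_co.Disproof
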